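import Pool.Agent.H91.T5.Form

/-! # The choice of the signs -/

set_option autoImplicit false
set_option linter.unusedSectionVars false

namespace Pool.Agent.H91.T5

open Finset

variable {F : Type} [Field F] [Fintype F] [DecidableEq F]

lemma card_blocks (C : F) (v : Vt F) :
    (univ.filter (fun b : (Option F × F) × ((F × F) × F) => ind C b.1 v = b.2)).card ≤
      Fintype.card F ^ 2 + Fintype.card F := by
  have h : (univ.filter (fun b : (Option F × F) × ((F × F) × F) => ind C b.1 v = b.2)).card ≤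
      (univ : Finset (Option F × F)).card := by
    apply card_le_card_of_injOn (fun b => b.1)
    · intro b _
      exact mem_coe.2 (mem_univ _)
    · intro b hb b' hb' hbb
      simp only [coe_filter, mem_univ, true_and, Set.mem_setOf_eq] at hb hb'
      simp only at hbb
      apply Prod.ext hbb
      rw [← hb, ← hb', hbb]
  refine h.trans (le_of_eq ?_)
  rw [card_univ, Fintype.card_prod, Fintype.card_option]
  ring

lemma card_vertices (C : F) (b : (Option F × F) × ((F × F) × F)) :
    (univ.filter (fun v : Vt F => ind C b.1 v = b.2)).card ≤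
      Fintype.card F ^ 2 + Fintype.card F := by
  obtain ⟨⟨m, g⟩, t⟩ := b
  have h : (univ.filter (fun v : Vt F => ind C (m, g) v = t)).card ≤
      (univ : Finset (F × F)).card := by
    rcases m with _ | m
    · apply card_le_card_of_injOn (fun v => (v.1.1.2, v.2.1))
      · intro b _
        exact mem_coe.2 (mem_univ _)
      · rintro ⟨⟨⟨x, y⟩, G⟩, ⟨a, b⟩⟩ hv ⟨⟨⟨x', y'⟩, G'⟩, ⟨a', b'⟩⟩ hw hvw
        simp only [coe_filter, mem_univ, true_and, Set.mem_setOf_eq] at hv hw
        simp only [Prod.mk.injEq] at hvw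
        obtain ⟨rfl, rfl⟩ := hvw
        rw [← hw] at hv
        simp only [ind, lin, thd, Prod.mk.injEq] at hv
        obtain ⟨⟨h1, h2⟩, h4⟩ := hv
        simp only [Prod.mk.injEq]
        exact ⟨⟨⟨h1, trivial⟩, by linear_combination h2⟩, trivial, by linear_combination h4⟩
    · apply card_le_card_of_injOn (fun v => (v.1.1.1, v.2.2))
      · intro b _
        exact mem_coe.2 (mem_univ _)
      · rintro ⟨⟨⟨x, y⟩, G⟩, ⟨a, b⟩⟩ hv ⟨⟨⟨x', y'⟩, G'⟩, ⟨a', b'⟩⟩ hw hvw
        simp only [coe_filter, mem_univ, true_and, Set.mem_setOf_eq] at hv hw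
        simp only [Prod.mk.injEq] at hvw
        obtain ⟨rfl, rfl⟩ := hvw
        rw [← hw] at hv
        simp only [ind, lin, thd, Prod.mk.injEq] at hv
        obtain ⟨⟨h1, h2⟩, h4⟩ := hv
        simp only [Prod.mk.injEq]
        exact ⟨⟨⟨trivial, by linear_combination h1⟩, by linear_combination h2⟩,
          by linear_combination h4, trivial⟩
  refine h.trans ?_
  rw [card_univ, Fintype.card_prod]
  nlinarith [Nat.zero_le (Fintype.card F)]

/-- The signs. -/
theorem exists_kept (h3 : (3 : F) = 0) (C : F) {k : ℕ} (hk : 0 < k)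
    (hcard : 3 * Fintype.card F ^ 5 ≤ 3 ^ k) :
    ∃ y : Vt F → (Option F × F) × ((F × F) × F) → Bool,
      (∀ u : Vt F → ℝ, -(((Fintype.card F : ℝ) ^ 2 +
        12 * (((Fintype.card F : ℝ) ^ 2 + Fintype.card F) + 4 * k)) / 2 * ∑ v, u v ^ 2) ≤
        ∑ v, ∑ w, KM C y v w * (u v * u w)) ∧
      ((Fintype.card F : ℝ) ^ 9 - (Fintype.card F : ℝ) ^ 7 -
        12 * (((Fintype.card F : ℝ) ^ 2 + Fintype.card F) + 4 * k) * (Fintype.card F : ℝ) ^ 5) / 2 ≤
        ∑ v, ∑ w, KM C y v w := by
  have hc : Fintype.card (Vt F) + Fintype.card ((Option F × F) × ((F × F) × F)) ≤ 3 ^ k := by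
    refine le_trans ?_ hcard
    simp only [Fintype.card_prod, Fintype.card_option]
    have hq : 1 ≤ Fintype.card F := Fintype.card_pos
    have h4 : Fintype.card F ^ 4 ≤ Fintype.card F ^ 5 := Nat.pow_le_pow_right hq (by norm_num)
    have h5 : ∀ q : ℕ, q * q * q * (q * q) + (q + 1) * q * (q * q * q) = 2 * q ^ 5 + q ^ 4 := by
      intro q; ring
    rw [h5]
    omega
  obtain ⟨y, hy⟩ := exists_signs (fun (v : Vt F) (b : (Option F × F) × ((F × F) × F)) =>
    ind C b.1 v = b.2) hk hc (card_blocks C) (card_vertices C)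
  set μ : ℝ := 12 * (((Fintype.card F : ℝ) ^ 2 + Fintype.card F) + 4 * k) with hμ
  have hy2 : ∀ u : Vt F → ℝ,
      ∑ δ : Option F × F, fs (ind C δ) (fun v => sg (y v (δ, ind C δ v)) * u v) ≤
        μ * ∑ v, u v ^ 2 := by
    intro u
    have h := hy u
    rw [Fintype.sum_prod_type] at h
    push_cast at h
    rw [← hμ] at h
    refine le_trans (le_of_eq ?_) h
    refine sum_congr rfl fun δ _ => ?_
    unfold fs
    refine sum_congr rfl fun t _ => ?_
    congr 1
    refine sum_congr rfl fun v _ => ?_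
    simp only
    split_ifs with hv
    · rw [hv]
    · rw [zero_mul]
  have hform : ∀ u : Vt F → ℝ, (∑ δ : Option F × F, fs (ind C δ) u -
      ∑ δ : Option F × F, fs (fun v : Vt F => (v.1, ind C δ v)) u) / 2 - μ / 2 * ∑ v, u v ^ 2 ≤
      ∑ v, ∑ w, KM C y v w * (u v * u w) := by
    intro u
    rw [KM_form]
    have h1 := hy2 u
    have h2 : 0 ≤ ∑ δ : Option F × F, fs (fun v : Vt F => (v.1, ind C δ v))
        (fun v => sg (y v (δ, ind C δ v)) * u v) := sum_nonneg fun _ _ => fs_nonneg _ _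
    linarith
  refine ⟨y, fun u => ?_, ?_⟩
  · have h1 := hform u
    have h2 := form_ge h3 C u
    have h4 : ((Fintype.card F : ℝ) ^ 2 + μ) / 2 * ∑ v, u v ^ 2 =
        ((Fintype.card F : ℝ) ^ 2 * ∑ v, u v ^ 2) / 2 + μ / 2 * ∑ v, u v ^ 2 := by ring
    rw [h4]
    linarith
  · have h1 := hform (fun _ => 1)
    have h2 := form_one h3 C
    have h6 : ∑ _v : Vt F, (1 : ℝ) ^ 2 = (Fintype.card F : ℝ) ^ 5 := by
      simp only [one_pow, sum_const, card_univ, Fintype.card_prod, nsmul_eq_mul]
      push_cast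
      ring
    simp only [mul_one] at h1
    rw [h6] at h1
    have h7 : μ / 2 * (Fintype.card F : ℝ) ^ 5 = μ * (Fintype.card F : ℝ) ^ 5 / 2 := by ring
    rw [h7] at h1
    linarith

end Pool.Agent.H91.T5
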