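import Pool.Agent.H91.T5.Sign

/-! # The norm of a symmetric matrix from the trace of a power -/

set_option autoImplicit false
set_option linter.unusedSectionVars false

namespace Pool.Agent.H91.T5

open Finset Matrix

variable {W : Type} [Fintype W] [DecidableEq W]

/-- The squared norm of the `j`-th iterate. -/
noncomputable def it (X : Matrix W W ℝ) (u : W → ℝ) (j : ℕ) : ℝ :=
  (X ^ j *ᵥ u) ⬝ᵥ (X ^ j *ᵥ u)

lemma it_nonneg (X : Matrix W W ℝ) (u : W → ℝ) (j : ℕ) : 0 ≤ it X u j :=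
  sum_nonneg fun _ _ => mul_self_nonneg _

lemma it_sq_le {X : Matrix W W ℝ} (hX : Xᵀ = X) (u : W → ℝ) (j : ℕ) :
    it X u (j + 1) ^ 2 ≤ it X u j * it X u (j + 2) := by
  have h1 : it X u (j + 1) = ∑ w, (X ^ j *ᵥ u) w * (X ^ (j + 2) *ᵥ u) w := by
    have h2 : X ^ (j + 1) *ᵥ u = X *ᵥ (X ^ j *ᵥ u) := by
      rw [mulVec_mulVec, ← pow_succ']
    have h3 : X ^ (j + 2) *ᵥ u = X *ᵥ (X ^ (j + 1) *ᵥ u) := by
      rw [mulVec_mulVec, ← pow_succ']
    show _ = (X ^ j *ᵥ u) ⬝ᵥ (X ^ (j + 2) *ᵥ u)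
    rw [h3, dotProduct_mulVec, ← mulVec_transpose, hX, ← h2, it]
  rw [h1]
  refine (sum_mul_sq_le_sq_mul_sq univ _ _).trans (le_of_eq ?_)
  unfold it dotProduct
  simp only [sq]

lemma it_mul_le {X : Matrix W W ℝ} (hX : Xᵀ = X) (u : W → ℝ) (j : ℕ) :
    it X u 1 * it X u j ≤ it X u 0 * it X u (j + 1) := by
  induction j with
  | zero => rw [mul_comm]
  | succ j ih =>
    rcases (it_nonneg X u (j + 1)).eq_or_lt with h | h
    · rw [← h, mul_zero]
      exact mul_nonneg (it_nonneg _ _ _) (it_nonneg _ _ _)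
    · have h1 := it_sq_le hX u j
      have h2 : it X u 1 * it X u (j + 1) * it X u (j + 1) ≤
          it X u 0 * it X u (j + 2) * it X u (j + 1) := by
        calc it X u 1 * it X u (j + 1) * it X u (j + 1) = it X u 1 * it X u (j + 1) ^ 2 := by ring
          _ ≤ it X u 1 * (it X u j * it X u (j + 2)) :=
            mul_le_mul_of_nonneg_left h1 (it_nonneg _ _ _)
          _ = it X u 1 * it X u j * it X u (j + 2) := by ring
          _ ≤ it X u 0 * it X u (j + 1) * it X u (j + 2) :=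
            mul_le_mul_of_nonneg_right ih (it_nonneg _ _ _)
          _ = _ := by ring
      exact le_of_mul_le_mul_right h2 h

lemma it_pow_le {X : Matrix W W ℝ} (hX : Xᵀ = X) (u : W → ℝ) (k : ℕ) :
    it X u 1 ^ k * it X u 0 ≤ it X u 0 ^ k * it X u k := by
  induction k with
  | zero => simp
  | succ k ih =>
    calc it X u 1 ^ (k + 1) * it X u 0 = it X u 1 * (it X u 1 ^ k * it X u 0) := by ring
      _ ≤ it X u 1 * (it X u 0 ^ k * it X u k) := mul_le_mul_of_nonneg_left ih (it_nonneg _ _ _)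
      _ = it X u 0 ^ k * (it X u 1 * it X u k) := by ring
      _ ≤ it X u 0 ^ k * (it X u 0 * it X u (k + 1)) :=
        mul_le_mul_of_nonneg_left (it_mul_le hX u k) (pow_nonneg (it_nonneg _ _ _) _)
      _ = _ := by ring

lemma it_le_trace {X : Matrix W W ℝ} (hX : Xᵀ = X) (u : W → ℝ) (k : ℕ) :
    it X u k ≤ (X ^ (2 * k)).trace * it X u 0 := by
  have h0 : it X u 0 = ∑ w, u w ^ 2 := by
    unfold it
    rw [pow_zero, one_mulVec, dotProduct]
    exact sum_congr rfl fun w _ => (sq _).symm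
  have htr : (X ^ (2 * k)).trace = ∑ i, ∑ j, (X ^ k) i j ^ 2 := by
    rw [two_mul, pow_add, Matrix.trace]
    refine sum_congr rfl fun i _ => ?_
    rw [diag_apply, mul_apply]
    refine sum_congr rfl fun j _ => ?_
    have : (X ^ k) j i = (X ^ k) i j := by
      have h : (X ^ k)ᵀ = X ^ k := by rw [transpose_pow, hX]
      exact congrFun (congrFun h i) j
    rw [this, sq]
  rw [h0, htr, sum_mul]
  unfold it
  refine sum_le_sum fun i _ => ?_
  have h1 : (X ^ k *ᵥ u) i = ∑ j, (X ^ k) i j * u j := rfl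
  rw [← sq, h1]
  exact sum_mul_sq_le_sq_mul_sq univ _ _

/-- The norm bound. -/
theorem norm_le {X : Matrix W W ℝ} (hX : Xᵀ = X) {k : ℕ} (hk : 0 < k) {μ : ℝ} (hμ : 0 ≤ μ)
    (ht : (X ^ (2 * k)).trace ≤ μ ^ k) (u : W → ℝ) :
    ∑ i, (∑ j, X i j * u j) ^ 2 ≤ μ * ∑ i, u i ^ 2 := by
  have h0 : it X u 0 = ∑ w, u w ^ 2 := by
    unfold it
    rw [pow_zero, one_mulVec, dotProduct]
    exact sum_congr rfl fun w _ => (sq _).symm
  have h1 : it X u 1 = ∑ i, (∑ j, X i j * u j) ^ 2 := by
    unfold it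
    rw [pow_one, dotProduct]
    exact sum_congr rfl fun w _ => (sq _).symm
  rw [← h0, ← h1]
  rcases (it_nonneg X u 0).eq_or_lt with h | h
  · have h2 : ∀ w, u w = 0 := by
      rw [h0, eq_comm, sum_eq_zero_iff_of_nonneg (fun _ _ => sq_nonneg _)] at h
      intro w
      exact pow_eq_zero_iff (two_ne_zero) |>.1 (h w (mem_univ w))
    rw [h1]
    have h3 : ∀ i, (∑ j, X i j * u j) ^ 2 = 0 := by
      intro i
      rw [sum_eq_zero fun j _ => by rw [h2 j, mul_zero]]
      ring
    rw [sum_eq_zero fun i _ => h3 i]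
    exact mul_nonneg hμ (it_nonneg _ _ _)
  · have h2 := (it_pow_le hX u k).trans
      (mul_le_mul_of_nonneg_left ((it_le_trace hX u k).trans
        (mul_le_mul_of_nonneg_right ht h.le)) (pow_nonneg h.le k))
    have h3 : it X u 1 ^ k * it X u 0 ≤ (μ * it X u 0) ^ k * it X u 0 := by
      refine h2.trans (le_of_eq ?_)
      rw [mul_pow]; ring
    have h4 := le_of_mul_le_mul_right h3 h
    exact le_of_pow_le_pow_left₀ hk.ne' (mul_nonneg hμ h.le) h4

/-- Random signs of an incidence relation: there is a choice of signs for which the signed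
incidence matrix has squared norm at most `12 (D + 4k)`, if `|V| + |B| ≤ 3^k`. -/
theorem exists_signs {V B : Type} [Fintype V] [DecidableEq V] [Fintype B] [DecidableEq B]
    (r : V → B → Prop) [∀ v b, Decidable (r v b)] {D k : ℕ} (hk : 0 < k)
    (hcard : Fintype.card V + Fintype.card B ≤ 3 ^ k)
    (hV : ∀ v, (univ.filter (fun b => r v b)).card ≤ D)
    (hB : ∀ b, (univ.filter (fun v => r v b)).card ≤ D) :
    ∃ y : V → B → Bool, ∀ u : V → ℝ,
      ∑ b, (∑ v, (if r v b then sg (y v b) else 0) * u v) ^ 2 ≤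
        12 * ((D : ℝ) + 4 * k) * ∑ v, u v ^ 2 := by
  classical
  set a : V ⊕ B → V ⊕ B → Prop := fun i j => match i, j with
    | Sum.inl v, Sum.inr b => r v b
    | Sum.inr b, Sum.inl v => r v b
    | _, _ => False with ha
  have hirr : ∀ i, ¬ a i i := by
    rintro (v | b) <;> simp [ha]
  have hD : ∀ i, (univ.filter (fun l => a i l)).card ≤ D := by
    rintro (v | b)
    · refine le_trans ?_ (hV v)
      have h1 : univ.filter (fun l => a (Sum.inl v) l) =
          (univ.filter (fun b => r v b)).map ⟨Sum.inr, Sum.inr_injective⟩ := by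
        ext l
        rcases l with w | b <;> simp [ha]
      rw [h1, card_map]
    · refine le_trans ?_ (hB b)
      have h1 : univ.filter (fun l => a (Sum.inr b) l) =
          (univ.filter (fun v => r v b)).map ⟨Sum.inl, Sum.inl_injective⟩ := by
        ext l
        rcases l with w | b <;> simp [ha]
      rw [h1, card_map]
  obtain ⟨s, hs⟩ := exists_signing a hk hirr hD
  refine ⟨fun v b => s s(Sum.inl v, Sum.inr b), fun u => ?_⟩
  have hsym : ∀ i j, a i j ↔ a j i := by
    rintro (v | b) (w | c) <;> simp [ha]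
  have hX : (sX a s)ᵀ = sX a s := by
    ext i j
    rw [transpose_apply]
    unfold sX
    rw [Sym2.eq_swap]
    by_cases h : a i j
    · rw [if_pos h, if_pos ((hsym i j).1 h)]
    · rw [if_neg h, if_neg (fun h' => h ((hsym i j).2 h'))]
  have hQ : (0 : ℝ) ≤ (D : ℝ) + 4 * k := by positivity
  have hμ : (sX a s ^ (2 * k)).trace ≤ (12 * ((D : ℝ) + 4 * k)) ^ k := by
    refine hs.trans ?_
    have h1 : (Fintype.card (V ⊕ B) : ℝ) ≤ 3 ^ k := by
      rw [Fintype.card_sum]
      exact_mod_cast hcard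
    calc (Fintype.card (V ⊕ B) : ℝ) * (4 * ((D : ℝ) + 4 * k)) ^ k
        ≤ 3 ^ k * (4 * ((D : ℝ) + 4 * k)) ^ k := mul_le_mul_of_nonneg_right h1 (by positivity)
      _ = _ := by rw [← mul_pow]; congr 1; ring
  have h2 := norm_le hX hk (by positivity) hμ (Sum.elim u (fun _ => 0))
  rw [Fintype.sum_sum_type, Fintype.sum_sum_type] at h2
  have h3 : ∑ b : B, (∑ v, (if r v b then sg (s s(Sum.inl v, Sum.inr b)) else 0) * u v) ^ 2 ≤
      ∑ x, (∑ j, sX a s (Sum.inl x) j * Sum.elim u (fun _ => 0) j) ^ 2 +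
      ∑ x, (∑ j, sX a s (Sum.inr x) j * Sum.elim u (fun _ => 0) j) ^ 2 := by
    have h4 : ∀ b : B, ∑ j, sX a s (Sum.inr b) j * Sum.elim u (fun _ => 0) j =
        ∑ v, (if r v b then sg (s s(Sum.inl v, Sum.inr b)) else 0) * u v := by
      intro b
      rw [Fintype.sum_sum_type]
      simp only [Sum.elim_inl, Sum.elim_inr, mul_zero, sum_const_zero, add_zero]
      refine sum_congr rfl fun v _ => ?_
      unfold sX
      rw [Sym2.eq_swap]
      simp only [ha]
    simp only [h4]
    exact le_add_of_nonneg_left (sum_nonneg fun _ _ => sq_nonneg _)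
  refine h3.trans (h2.trans (le_of_eq ?_))
  simp

end Pool.Agent.H91.T5
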