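import Pool.Agent.H91.T5.Geo
import Pool.Agent.H91.T5.Norm

/-! # The quadratic form of the kept graph -/

set_option autoImplicit false
set_option linter.unusedSectionVars false

namespace Pool.Agent.H91.T5

open Finset

variable {F : Type} [Field F] [Fintype F] [DecidableEq F]

lemma sum_fs {X T Δ : Type} [Fintype X] [Fintype T] [DecidableEq T] [Fintype Δ]
    (ι : Δ → X → T) (f : X → ℝ) :
    ∑ δ, fs (ι δ) f = ∑ v, ∑ w, f v * f w * ∑ δ, (if ι δ v = ι δ w then 1 else 0) := by
  rw [sum_congr rfl fun δ _ => (sum_fiber (ι δ) f).symm, sum_comm]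
  refine sum_congr rfl fun v _ => ?_
  rw [sum_comm]
  refine sum_congr rfl fun w _ => ?_
  rw [mul_sum]
  refine sum_congr rfl fun δ _ => ?_
  split_ifs <;> simp

section forms

variable (h3 : (3 : F) = 0)
include h3

lemma sum_fs_same (C : F) (u : Vt F → ℝ) :
    ∑ δ : Option F × F, fs (fun v : Vt F => (v.1, ind C δ v)) u =
      Fintype.card F * fs (fun v : Vt F => v.1) u + Fintype.card F ^ 2 * ∑ v, u v ^ 2 := by
  rw [sum_fs]
  have h1 : ∀ v w : Vt F, u v * u w * ∑ δ : Option F × F,
      (if (v.1, ind C δ v) = (w.1, ind C δ w) then (1 : ℝ) else 0) =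
      Fintype.card F * (if v.1 = w.1 then u v * u w else 0) +
        Fintype.card F ^ 2 * (if v = w then u v ^ 2 else 0) := by
    intro v w
    by_cases h : v.1 = w.1
    · rw [if_pos h]
      simp only [Prod.mk.injEq, h, true_and]
      rw [card_same h3 C h]
      by_cases hvw : v = w
      · subst hvw
        simp only [if_true]
        ring
      · simp only [hvw, if_false]
        ring
    · rw [if_neg h]
      have hvw : v ≠ w := fun e => h (congrArg Prod.fst e)
      simp only [Prod.mk.injEq, h, false_and, if_false, sum_const_zero, hvw]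
      ring
  simp only [h1, sum_add_distrib, ← mul_sum]
  rw [sum_fiber]
  congr 2
  refine sum_congr rfl fun v _ => ?_
  rw [sum_ite_eq, if_pos (mem_univ _)]

lemma sum_fs_lin (u : Vt F → ℝ) :
    ∑ δ : Option F × F, fs (fun v : Vt F => lin δ v.1) u =
      (∑ v, u v) ^ 2 - fs (fun v : Vt F => v.1.1) u +
        (Fintype.card F ^ 2 + Fintype.card F) * fs (fun v : Vt F => v.1) u := by
  rw [sum_fs]
  have h1 : ∀ v w : Vt F, u v * u w * ∑ δ : Option F × F,
      (if lin δ v.1 = lin δ w.1 then (1 : ℝ) else 0) =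
      u v * u w - (if v.1.1 = w.1.1 then u v * u w else 0) +
        (Fintype.card F ^ 2 + Fintype.card F) * (if v.1 = w.1 then u v * u w else 0) := by
    intro v w
    rw [card_lin h3]
    split_ifs <;> ring
  simp only [h1, sum_add_distrib, sum_sub_distrib, ← mul_sum]
  rw [sum_fiber, sum_fiber, ← sum_mul, ← sq]

lemma sum_fs_ge (C : F) (u : Vt F → ℝ) :
    Fintype.card F * fs (fun v : Vt F => v.1) u ≤ ∑ δ : Option F × F, fs (ind C δ) u := by
  have hq : (0 : ℝ) < Fintype.card F := by exact_mod_cast Fintype.card_pos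
  have h1 : fs (fun v : Vt F => v.1.1) u ≤ Fintype.card F * fs (fun v : Vt F => v.1) u :=
    fs_le_mul (fun v : Vt F => v.1.1) (fun v : Vt F => v.1.2) u
  have h2 : ∑ δ : Option F × F, fs (fun v : Vt F => lin δ v.1) u ≤
      Fintype.card F * ∑ δ : Option F × F, fs (ind C δ) u := by
    rw [mul_sum]
    exact sum_le_sum fun δ _ => fs_le_mul (fun v : Vt F => lin δ v.1) (thd C δ) u
  rw [sum_fs_lin h3] at h2
  have h4 : (0 : ℝ) ≤ (∑ v, u v) ^ 2 := sq_nonneg _
  have h5 : (Fintype.card F : ℝ) * (Fintype.card F * fs (fun v : Vt F => v.1) u) ≤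
      Fintype.card F * ∑ δ : Option F × F, fs (ind C δ) u := by
    nlinarith
  exact le_of_mul_le_mul_left h5 hq

/-- The form of the big graph is at least `-q²`. -/
lemma form_ge (C : F) (u : Vt F → ℝ) :
    -((Fintype.card F : ℝ) ^ 2 * ∑ v, u v ^ 2) ≤ ∑ δ : Option F × F, fs (ind C δ) u -
      ∑ δ : Option F × F, fs (fun v : Vt F => (v.1, ind C δ v)) u := by
  rw [sum_fs_same h3]
  have := sum_fs_ge h3 C u
  linarith

/-- The number of edges of the big graph. -/
lemma form_one (C : F) :
    (Fintype.card F : ℝ) ^ 9 - (Fintype.card F : ℝ) ^ 7 ≤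
      ∑ δ : Option F × F, fs (ind C δ) (fun _ => 1) -
      ∑ δ : Option F × F, fs (fun v : Vt F => (v.1, ind C δ v)) (fun _ => 1) := by
  set q : ℝ := (Fintype.card F : ℝ) with hq
  have hq0 : 0 < q := by rw [hq]; exact_mod_cast Fintype.card_pos
  rw [sum_fs_same h3]
  have h1 : ∀ δ : Option F × F, q ^ 7 ≤ fs (ind C δ) (fun _ => 1) := by
    intro δ
    have h := fs_one (ind C δ)
    simp only [Fintype.card_prod] at h
    push_cast at h
    rw [← hq] at h
    have h' : q ^ 3 * q ^ 7 ≤ q ^ 3 * fs (ind C δ) (fun _ => 1) := by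
      linarith
    exact le_of_mul_le_mul_left h' (by positivity)
  have h2 : (q + 1) * q * q ^ 7 ≤ ∑ δ : Option F × F, fs (ind C δ) (fun _ => 1) := by
    calc (q + 1) * q * q ^ 7 = ∑ δ : Option F × F, q ^ 7 := by
          rw [sum_const, card_univ, Fintype.card_prod, Fintype.card_option, nsmul_eq_mul]
          push_cast
          rw [← hq]
      _ ≤ _ := sum_le_sum fun δ _ => h1 δ
  have h4 : fs (fun v : Vt F => v.1) (fun _ => 1) = q ^ 7 := by
    unfold fs
    have h5 : ∀ P : (F × F) × F, (∑ v : Vt F, if v.1 = P then (1 : ℝ) else 0) = q ^ 2 := by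
      intro P
      rw [Fintype.sum_prod_type, sum_comm]
      simp only [sum_ite_eq', mem_univ, if_true, sum_const, card_univ, Fintype.card_prod,
        nsmul_eq_mul]
      push_cast
      rw [← hq]
      ring
    rw [sum_congr rfl fun P _ => by rw [h5 P], sum_const, card_univ, nsmul_eq_mul]
    simp only [Fintype.card_prod]
    push_cast
    rw [← hq]
    ring
  have h6 : ∑ _v : Vt F, (1 : ℝ) ^ 2 = q ^ 5 := by
    simp only [one_pow, sum_const, card_univ, Fintype.card_prod, nsmul_eq_mul]
    push_cast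
    rw [← hq]
    ring
  rw [h4, h6]
  nlinarith

end forms

/-- The matrix of the kept graph. -/
noncomputable def KM (C : F) (y : Vt F → (Option F × F) × ((F × F) × F) → Bool)
    (v w : Vt F) : ℝ :=
  ∑ δ : Option F × F, if v.1 ≠ w.1 ∧ ind C δ v = ind C δ w then
    (1 - sg (y v (δ, ind C δ v)) * sg (y w (δ, ind C δ w))) / 2 else 0

lemma KM_symm (C : F) (y : Vt F → (Option F × F) × ((F × F) × F) → Bool) (v w : Vt F) :
    KM C y v w = KM C y w v := by
  unfold KM
  refine sum_congr rfl fun δ _ => ?_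
  by_cases h : v.1 ≠ w.1 ∧ ind C δ v = ind C δ w
  · rw [if_pos h, if_pos ⟨h.1.symm, h.2.symm⟩]
    ring
  · rw [if_neg h, if_neg (fun h' => h ⟨h'.1.symm, h'.2.symm⟩)]

lemma KM_self (C : F) (y : Vt F → (Option F × F) × ((F × F) × F) → Bool) (v : Vt F) :
    KM C y v v = 0 := by
  unfold KM
  exact sum_eq_zero fun δ _ => if_neg (fun h => h.1 rfl)

lemma KM_of_not_kept {C : F} {y : Vt F → (Option F × F) × ((F × F) × F) → Bool} {v w : Vt F}
    (h : ¬ Kept C y v w) : KM C y v w = 0 := by
  unfold KM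
  refine sum_eq_zero fun δ _ => ?_
  split_ifs with h1
  · have h2 : y v (δ, ind C δ v) = y w (δ, ind C δ w) := by
      by_contra h4
      exact h ⟨δ, h1.1, h1.2, h4⟩
    rw [h2, sg_mul_self]
    ring
  · rfl

lemma KM_form (C : F) (y : Vt F → (Option F × F) × ((F × F) × F) → Bool) (u : Vt F → ℝ) :
    ∑ v, ∑ w, KM C y v w * (u v * u w) =
      (∑ δ : Option F × F, fs (ind C δ) u -
        ∑ δ : Option F × F, fs (fun v : Vt F => (v.1, ind C δ v)) u) / 2 -
      (∑ δ : Option F × F, fs (ind C δ) (fun v => sg (y v (δ, ind C δ v)) * u v) -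
        ∑ δ : Option F × F, fs (fun v : Vt F => (v.1, ind C δ v))
          (fun v => sg (y v (δ, ind C δ v)) * u v)) / 2 := by
  unfold KM
  have h1 : ∀ v w : Vt F, (∑ δ : Option F × F, if v.1 ≠ w.1 ∧ ind C δ v = ind C δ w then
      (1 - sg (y v (δ, ind C δ v)) * sg (y w (δ, ind C δ w))) / 2 else 0) * (u v * u w) =
      ∑ δ : Option F × F, (((if ind C δ v = ind C δ w then u v * u w else 0) -
        (if (v.1, ind C δ v) = (w.1, ind C δ w) then u v * u w else 0)) / 2 -
        ((if ind C δ v = ind C δ w then (sg (y v (δ, ind C δ v)) * u v) *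
          (sg (y w (δ, ind C δ w)) * u w) else 0) -
        (if (v.1, ind C δ v) = (w.1, ind C δ w) then (sg (y v (δ, ind C δ v)) * u v) *
          (sg (y w (δ, ind C δ w)) * u w) else 0)) / 2) := by
    intro v w
    rw [sum_mul]
    refine sum_congr rfl fun δ _ => ?_
    simp only [Prod.mk.injEq]
    by_cases ha : v.1 = w.1 <;> by_cases hb : ind C δ v = ind C δ w
    · simp only [ha, hb, ne_eq, not_true_eq_false, false_and, if_false, true_and, if_true]
      ring
    · simp only [ha, hb, ne_eq, not_true_eq_false, false_and, and_false, if_false]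
      ring
    · simp only [ha, hb, ne_eq, not_false_eq_true, true_and, if_true, false_and, if_false]
      ring
    · simp only [ha, hb, and_false, if_false]
      ring
  simp only [h1]
  rw [sum_congr rfl fun v _ => sum_comm, sum_comm, ← sum_sub_distrib, ← sum_sub_distrib,
    sum_div, sum_div, ← sum_sub_distrib]
  refine sum_congr rfl fun δ _ => ?_
  rw [← sum_fiber, ← sum_fiber, ← sum_fiber, ← sum_fiber]
  simp only [sum_sub_distrib, ← sum_div]

end Pool.Agent.H91.T5
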