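import Pool.Agent.H91.T5.K4

/-! # The blocks: counting and the quadratic forms -/

set_option autoImplicit false
set_option linter.unusedSectionVars false

namespace Pool.Agent.H91.T5

open Finset

section generic

variable {X T U : Type} [Fintype X] [Fintype T] [DecidableEq T] [Fintype U] [DecidableEq U]

/-- The sum of the squares of the fibre sums. -/
def fs (ι : X → T) (f : X → ℝ) : ℝ := ∑ t, (∑ v, if ι v = t then f v else 0) ^ 2

lemma fs_nonneg (ι : X → T) (f : X → ℝ) : 0 ≤ fs ι f := sum_nonneg fun _ _ => sq_nonneg _

lemma sum_fiber (ι : X → T) (f : X → ℝ) :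
    ∑ v, ∑ w, (if ι v = ι w then f v * f w else 0) = fs ι f := by
  unfold fs
  have h1 : ∀ t, (∑ v, if ι v = t then f v else 0) ^ 2 =
      ∑ v, ∑ w, if ι v = t then (if ι w = t then f v * f w else 0) else 0 := by
    intro t
    rw [sq, sum_mul_sum]
    refine sum_congr rfl fun v _ => sum_congr rfl fun w _ => ?_
    split_ifs <;> simp
  rw [sum_congr rfl fun t _ => h1 t, eq_comm, sum_comm]
  refine sum_congr rfl fun v _ => ?_
  rw [sum_comm]
  refine sum_congr rfl fun w _ => ?_
  have h2 : ∑ t, (if ι v = t then (if ι w = t then f v * f w else 0) else 0) =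
      if ι w = ι v then f v * f w else 0 := by
    rw [sum_ite_eq, if_pos (mem_univ _)]
  rw [h2]
  by_cases h : ι v = ι w
  · rw [if_pos h, if_pos h.symm]
  · rw [if_neg h, if_neg (fun h' => h h'.symm)]

/-- Cauchy's inequality over the second coordinate. -/
lemma fs_le_mul (ι : X → T) (κ : X → U) (f : X → ℝ) :
    fs ι f ≤ Fintype.card U * fs (fun v => (ι v, κ v)) f := by
  unfold fs
  rw [Fintype.sum_prod_type, mul_sum]
  refine sum_le_sum fun t _ => ?_
  have h1 : (∑ v, if ι v = t then f v else 0) =
      ∑ u : U, ∑ v, if (ι v, κ v) = (t, u) then f v else 0 := by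
    rw [sum_comm]
    refine sum_congr rfl fun v _ => ?_
    simp only [Prod.mk.injEq]
    by_cases h : ι v = t
    · simp [h]
    · simp [h]
  rw [h1]
  refine (sq_sum_le_card_mul_sum_sq (s := univ)).trans (le_of_eq ?_)
  rw [card_univ]

lemma fs_one (ι : X → T) : (Fintype.card X : ℝ) ^ 2 ≤ Fintype.card T * fs ι (fun _ => 1) := by
  unfold fs
  have h1 : (Fintype.card X : ℝ) = ∑ t : T, ∑ v, if ι v = t then (1 : ℝ) else 0 := by
    rw [sum_comm]
    simp
  rw [h1]
  refine (sq_sum_le_card_mul_sum_sq (s := univ)).trans (le_of_eq ?_)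
  rw [card_univ]

end generic

variable {F : Type} [Field F] [Fintype F] [DecidableEq F]

section counts

variable (h3 : (3 : F) = 0)
include h3

lemma cube_surj (z : F) : ∃ x : F, x ^ 3 = z := by
  have h : Function.Injective (fun x : F => x ^ 3) := fun x y hxy => cube_inj h3 hxy
  exact (Finite.injective_iff_surjective.1 h) z

/-- Directions joining two vertices over the same point. -/
lemma card_same (C : F) {v w : Vt F} (h : v.1 = w.1) :
    ∑ δ : Option F × F, (if ind C δ v = ind C δ w then (1 : ℝ) else 0) =
      Fintype.card F + Fintype.card F ^ 2 * (if v = w then 1 else 0) := by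
  obtain ⟨⟨⟨x, y⟩, G⟩, ⟨a, b⟩⟩ := v
  obtain ⟨⟨⟨x', y'⟩, G'⟩, ⟨a', b'⟩⟩ := w
  simp only [Prod.mk.injEq] at h
  obtain ⟨⟨rfl, rfl⟩, rfl⟩ := h
  rw [Fintype.sum_prod_type, Fintype.sum_option]
  have e1 : ∀ g : F, (ind C (none, g) (((x, y), G), (a, b)) =
      ind C (none, g) (((x, y), G), (a', b'))) ↔ b = b' := by
    intro g
    simp only [ind, lin, thd, Prod.mk.injEq]
    constructor
    · rintro ⟨_, h⟩
      linear_combination h
    · rintro rfl
      exact ⟨trivial, rfl⟩
  have e2 : ∀ m g : F, (ind C (some m, g) (((x, y), G), (a, b)) =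
      ind C (some m, g) (((x, y), G), (a', b'))) ↔ a - a' + m ^ 3 * (b - b') = 0 := by
    intro m g
    simp only [ind, lin, thd, Prod.mk.injEq]
    constructor
    · rintro ⟨_, h⟩
      linear_combination h
    · intro h
      exact ⟨trivial, by linear_combination h⟩
  simp only [e1, e2, sum_const, card_univ, nsmul_eq_mul]
  by_cases hb : b = b'
  · subst hb
    by_cases ha : a = a'
    · subst ha
      simp
      ring
    · have : ¬ (((x, y), G), (a, b)) = (((x, y), G), (a', b)) := by
        simp only [Prod.mk.injEq]
        exact fun h => ha h.2.1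
      rw [if_neg this]
      simp [sub_eq_zero, ha]
  · have : ¬ (((x, y), G), (a, b)) = (((x, y), G), (a', b')) := by
      simp only [Prod.mk.injEq]
      exact fun h => hb h.2.2
    rw [if_neg this, if_neg hb]
    obtain ⟨m0, hm0⟩ := cube_surj h3 (-(a - a') / (b - b'))
    have hbb : b - b' ≠ 0 := sub_ne_zero.2 hb
    have e3 : ∀ m : F, (a - a' + m ^ 3 * (b - b') = 0) ↔ m = m0 := by
      intro m
      constructor
      · intro h
        apply cube_inj h3
        rw [hm0]
        field_simp
        linear_combination h
      · rintro rfl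
        rw [hm0]
        field_simp
        ring
    simp only [e3]
    simp

/-- Directions joining two points. -/
lemma card_lin (P P' : (F × F) × F) :
    ∑ δ : Option F × F, (if lin δ P = lin δ P' then (1 : ℝ) else 0) =
      1 - (if P.1 = P'.1 then 1 else 0) +
        (Fintype.card F ^ 2 + Fintype.card F) * (if P = P' then 1 else 0) := by
  by_cases hP : P = P'
  · subst hP
    simp
    ring
  rw [if_neg hP]
  by_cases h1 : P.1 = P'.1
  · rw [if_pos h1]
    have : ∀ δ : Option F × F, ¬ lin δ P = lin δ P' := by
      rintro ⟨m, g⟩ h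
      apply hP
      apply Prod.ext h1
      rcases m with _ | m
      · simp only [lin, Prod.mk.injEq, h1] at h
        linear_combination h.2
      · simp only [lin, Prod.mk.injEq, h1] at h
        linear_combination h.2
    simp [this]
  · rw [if_neg h1]
    obtain ⟨⟨x, y⟩, G⟩ := P
    obtain ⟨⟨x', y'⟩, G'⟩ := P'
    simp only [Prod.mk.injEq] at h1
    obtain ⟨δ0, hδ0⟩ : ∃ δ0 : Option F × F, ∀ δ, lin δ ((x, y), G) = lin δ ((x', y'), G') ↔
        δ = δ0 := by
      by_cases hx : x = x'
      · subst hx
        have hy : y ≠ y' := fun h => h1 ⟨rfl, h⟩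
        have hyy : y ^ 3 - y' ^ 3 ≠ 0 := fun h => hy (cube_inj h3 (sub_eq_zero.1 h))
        refine ⟨(none, (G - G') / (y ^ 3 - y' ^ 3)), ?_⟩
        rintro ⟨m, g⟩
        rcases m with _ | m
        · simp only [lin, Prod.mk.injEq, true_and]
          rw [eq_div_iff hyy]
          constructor
          · intro h; linear_combination -h
          · intro h; linear_combination -h
        · simp only [lin, Prod.mk.injEq]
          constructor
          · rintro ⟨h, _⟩
            exact absurd (by linear_combination h) hy
          · rintro ⟨h, _⟩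
            exact absurd h (by simp)
      · have hxx : x ^ 3 - x' ^ 3 ≠ 0 := fun h => hx (cube_inj h3 (sub_eq_zero.1 h))
        have hx1 : x - x' ≠ 0 := sub_ne_zero.2 hx
        refine ⟨(some ((y - y') / (x - x')), (G - G') / (x ^ 3 - x' ^ 3)), ?_⟩
        rintro ⟨m, g⟩
        rcases m with _ | m
        · simp only [lin, Prod.mk.injEq]
          constructor
          · rintro ⟨h, _⟩
            exact absurd h hx
          · rintro ⟨h, _⟩
            exact absurd h (by simp)
        · simp only [lin, Prod.mk.injEq, Option.some.injEq]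
          rw [eq_div_iff hxx, eq_div_iff hx1]
          constructor
          · rintro ⟨h, h'⟩
            exact ⟨by linear_combination -h, by linear_combination -h'⟩
          · rintro ⟨h, h'⟩
            exact ⟨by linear_combination -h, by linear_combination -h'⟩
    simp only [hδ0]
    simp

end counts

end Pool.Agent.H91.T5
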