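import Mathlib

/-! # The cliques of the graph `dx³ da + dy³ db = dx² dy² + C dG²` in characteristic three -/

set_option autoImplicit false
set_option linter.unusedSectionVars false

namespace Pool.Agent.H91.T5

/-- The vertices `((x, y), G), (a, b)`. -/
abbrev Vt (F : Type) : Type := ((F × F) × F) × (F × F)

variable {F : Type} [Field F]

/-- The line of direction `δ` through the point `P`. -/
def lin (δ : Option F × F) (P : (F × F) × F) : F × F :=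
  match δ.1 with
  | some m => (P.1.2 - m * P.1.1, P.2 - δ.2 * P.1.1 ^ 3)
  | none => (P.1.1, P.2 - δ.2 * P.1.2 ^ 3)

/-- The third coordinate of the block of direction `δ`. -/
def thd (C : F) (δ : Option F × F) (v : Vt F) : F :=
  match δ.1 with
  | some m => v.2.1 + m ^ 3 * v.2.2 - m ^ 2 * v.1.1.1 - C * δ.2 ^ 2 * v.1.1.1 ^ 3
  | none => v.2.2 - C * δ.2 ^ 2 * v.1.1.2 ^ 3

/-- The block of direction `δ` through the vertex `v`. -/
def ind (C : F) (δ : Option F × F) (v : Vt F) : (F × F) × F := (lin δ v.1, thd C δ v)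

/-- The adjacency of the big graph. -/
def Adj0 (C : F) (v w : Vt F) : Prop :=
  (v.1.1.1 ≠ w.1.1.1 ∨ v.1.1.2 ≠ w.1.1.2) ∧
  (v.1.1.1 - w.1.1.1) ^ 3 * (v.2.1 - w.2.1) + (v.1.1.2 - w.1.1.2) ^ 3 * (v.2.2 - w.2.2) =
    (v.1.1.1 - w.1.1.1) ^ 2 * (v.1.1.2 - w.1.1.2) ^ 2 + C * (v.1.2 - w.1.2) ^ 2

lemma Adj0.symm {C : F} {v w : Vt F} (h : Adj0 C v w) : Adj0 C w v := by
  refine ⟨h.1.imp Ne.symm Ne.symm, ?_⟩
  linear_combination h.2

section char

variable (h3 : (3 : F) = 0)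
include h3

lemma cube_sub (x y : F) : (x - y) ^ 3 = x ^ 3 - y ^ 3 := by
  linear_combination (x * y ^ 2 - x ^ 2 * y) * h3

lemma cube_inj {x y : F} (h : x ^ 3 = y ^ 3) : x = y := by
  have : (x - y) ^ 3 = 0 := by rw [cube_sub h3, h, sub_self]
  exact sub_eq_zero.1 (pow_eq_zero_iff (by norm_num) |>.1 this)

/-- Two vertices of a block over different points are adjacent. -/
lemma adj0_of_ind {C : F} {δ : Option F × F} {v w : Vt F} (hne : v.1 ≠ w.1)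
    (h : ind C δ v = ind C δ w) : Adj0 C v w := by
  obtain ⟨⟨⟨x, y⟩, G⟩, ⟨a, b⟩⟩ := v
  obtain ⟨⟨⟨x', y'⟩, G'⟩, ⟨a', b'⟩⟩ := w
  obtain ⟨m, g⟩ := δ
  rcases m with _ | m
  · simp only [ind, lin, thd, Prod.mk.injEq] at h
    obtain ⟨⟨h1, h2⟩, h4⟩ := h
    subst h1
    refine ⟨Or.inr ?_, ?_⟩
    · intro hy
      simp only at hy
      subst hy
      exact hne (by simp only [Prod.mk.injEq]; exact ⟨trivial, by linear_combination h2⟩)
    · simp only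
      have hG : G - G' = g * (y ^ 3 - y' ^ 3) := by linear_combination h2
      have hb : b - b' = C * g ^ 2 * (y ^ 3 - y' ^ 3) := by linear_combination h4
      rw [hG, hb]
      have hc := cube_sub h3 y y'
      linear_combination (C * g ^ 2 * (y ^ 3 - y' ^ 3)) * hc
  · simp only [ind, lin, thd, Prod.mk.injEq] at h
    obtain ⟨⟨h1, h2⟩, h4⟩ := h
    refine ⟨Or.inl ?_, ?_⟩
    · intro hx
      simp only at hx
      subst hx
      exact hne (by
        simp only [Prod.mk.injEq]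
        exact ⟨⟨trivial, by linear_combination h1⟩, by linear_combination h2⟩)
    · simp only
      have hG : G - G' = g * (x ^ 3 - x' ^ 3) := by linear_combination h2
      have hy : y - y' = m * (x - x') := by linear_combination h1
      have ha : a - a' = - (m ^ 3 * (b - b')) + m ^ 2 * (x - x') +
          C * g ^ 2 * (x ^ 3 - x' ^ 3) := by linear_combination h4
      rw [hG, ha, hy]
      have hc := cube_sub h3 x x'
      linear_combination (C * g ^ 2 * (x ^ 3 - x' ^ 3)) * hc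

/-- Two vertices over different points lie in at most one common block. -/
lemma dir_unique {C : F} {δ δ' : Option F × F} {v w : Vt F} (hne : v.1 ≠ w.1)
    (h : ind C δ v = ind C δ w) (h' : ind C δ' v = ind C δ' w) : δ = δ' := by
  obtain ⟨⟨⟨x, y⟩, G⟩, ⟨a, b⟩⟩ := v
  obtain ⟨⟨⟨x', y'⟩, G'⟩, ⟨a', b'⟩⟩ := w
  obtain ⟨m, g⟩ := δ
  obtain ⟨m', g'⟩ := δ'
  have hx : ∀ (m g : F), ind C (some m, g) (((x, y), G), (a, b)) =
      ind C (some m, g) (((x', y'), G'), (a', b')) → x ≠ x' := by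
    intro m g h hx
    simp only [ind, lin, thd, Prod.mk.injEq] at h
    obtain ⟨⟨h1, h2⟩, h4⟩ := h
    subst hx
    exact hne (by
      simp only [Prod.mk.injEq]
      exact ⟨⟨trivial, by linear_combination h1⟩, by linear_combination h2⟩)
  rcases m with _ | m <;> rcases m' with _ | m'
  · simp only [ind, lin, thd, Prod.mk.injEq] at h h'
    obtain ⟨⟨h1, h2⟩, h4⟩ := h
    obtain ⟨⟨_, h2'⟩, h4'⟩ := h'
    subst h1
    have hy : y ≠ y' := by
      intro hy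
      subst hy
      exact hne (by simp only [Prod.mk.injEq]; exact ⟨trivial, by linear_combination h2⟩)
    have h5 : (g - g') * (y ^ 3 - y' ^ 3) = 0 := by linear_combination h2' - h2
    rcases mul_eq_zero.1 h5 with h6 | h6
    · rw [sub_eq_zero.1 h6]
    · exact absurd (cube_inj h3 (sub_eq_zero.1 h6)) hy
  · have := hx m' g' h'
    simp only [ind, lin, thd, Prod.mk.injEq] at h
    exact absurd h.1.1 this
  · have := hx m g h
    simp only [ind, lin, thd, Prod.mk.injEq] at h'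
    exact absurd h'.1.1 this
  · have hxx := hx m g h
    simp only [ind, lin, thd, Prod.mk.injEq] at h h'
    obtain ⟨⟨h1, h2⟩, h4⟩ := h
    obtain ⟨⟨h1', h2'⟩, h4'⟩ := h'
    have h5 : (m - m') * (x - x') = 0 := by linear_combination h1' - h1
    have h6 : (g - g') * (x ^ 3 - x' ^ 3) = 0 := by linear_combination h2' - h2
    have h7 : m = m' := by
      rcases mul_eq_zero.1 h5 with h | h
      · exact sub_eq_zero.1 h
      · exact absurd (sub_eq_zero.1 h) hxx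
    have h8 : g = g' := by
      rcases mul_eq_zero.1 h6 with h | h
      · exact sub_eq_zero.1 h
      · exact absurd (cube_inj h3 (sub_eq_zero.1 h)) hxx
    rw [h7, h8]

/-- The triple relation. -/
lemma triple_aux {C x1 s1 g1 x2 s2 g2 : F} (hC : C ≠ 0)
    (hx1 : x1 ≠ 0) (hx2 : x2 ≠ 0) (R1 : x1 ^ 3 * s1 = C * g1 ^ 2) (R2 : x2 ^ 3 * s2 = C * g2 ^ 2)
    (R12 : (x1 - x2) ^ 3 * (s1 - s2) = C * (g1 - g2) ^ 2) :
    g1 = g1 / x1 ^ 3 * x1 ^ 3 ∧ g2 = g1 / x1 ^ 3 * x2 ^ 3 ∧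
    s1 = C * (g1 / x1 ^ 3) ^ 2 * x1 ^ 3 ∧ s2 = C * (g1 / x1 ^ 3) ^ 2 * x2 ^ 3 := by
  have h1 : x1 ^ 3 * s2 + x2 ^ 3 * s1 = 2 * C * g1 * g2 := by
    rw [cube_sub h3] at R12
    linear_combination R1 + R2 - R12
  have h2 : C * (x1 ^ 3 * g2 - x2 ^ 3 * g1) ^ 2 = 0 := by
    linear_combination x1 ^ 3 * x2 ^ 3 * h1 - x1 ^ 6 * R2 - x2 ^ 6 * R1
  have h4 : x1 ^ 3 * g2 = x2 ^ 3 * g1 := by
    rcases mul_eq_zero.1 h2 with h | h
    · exact absurd h hC
    · exact sub_eq_zero.1 (pow_eq_zero_iff (by norm_num) |>.1 h)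
  have h5 : x1 ^ 3 ≠ 0 := pow_ne_zero _ hx1
  have h6 : x2 ^ 3 ≠ 0 := pow_ne_zero _ hx2
  have e1 : g1 = g1 / x1 ^ 3 * x1 ^ 3 := by field_simp
  have e2 : g2 = g1 / x1 ^ 3 * x2 ^ 3 := by
    field_simp
    linear_combination h4
  refine ⟨e1, e2, ?_, ?_⟩
  · have : x1 ^ 3 * s1 = x1 ^ 3 * (C * (g1 / x1 ^ 3) ^ 2 * x1 ^ 3) := by
      rw [R1]
      field_simp
    exact mul_left_cancel₀ h5 this
  · have : x2 ^ 3 * s2 = x2 ^ 3 * (C * (g1 / x1 ^ 3) ^ 2 * x2 ^ 3) := by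
      rw [R2]
      nth_rewrite 1 [e2]
      ring
    exact mul_left_cancel₀ h6 this

/-- Three pairwise adjacent vertices over collinear points lie in a common block. -/
lemma triple {C : F} (hC : C ≠ 0) {u v w : Vt F} (huv : Adj0 C u v) (huw : Adj0 C u w)
    (hvw : Adj0 C v w)
    (hcol : (v.1.1.1 - u.1.1.1) * (w.1.1.2 - u.1.1.2) =
      (w.1.1.1 - u.1.1.1) * (v.1.1.2 - u.1.1.2)) :
    ∃ δ, ind C δ u = ind C δ v ∧ ind C δ u = ind C δ w := by
  obtain ⟨⟨⟨x0, y0⟩, G0⟩, ⟨a0, b0⟩⟩ := u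
  obtain ⟨⟨⟨x, y⟩, G⟩, ⟨a, b⟩⟩ := v
  obtain ⟨⟨⟨x', y'⟩, G'⟩, ⟨a', b'⟩⟩ := w
  obtain ⟨n1, E1⟩ := huv
  obtain ⟨n2, E2⟩ := huw
  obtain ⟨n3, E3⟩ := hvw
  simp only at n1 n2 n3 E1 E2 E3 hcol
  by_cases hx : x = x0
  · subst hx
    have hy : y0 ≠ y := n1.resolve_left (by simp)
    have hx' : x' = x := by
      have : (x' - x) * (y - y0) = 0 := by linear_combination -hcol
      rcases mul_eq_zero.1 this with h | h
      · exact sub_eq_zero.1 h
      · exact absurd (sub_eq_zero.1 h).symm hy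
    subst hx'
    have hy' : y0 ≠ y' := n2.resolve_left (by simp)
    have hyy : y ≠ y' := n3.resolve_left (by simp)
    obtain ⟨e1, e2, e3, e4⟩ := triple_aux h3 (C := C) (x1 := y - y0) (s1 := b - b0) (g1 := G - G0)
      (x2 := y' - y0) (s2 := b' - b0) (g2 := G' - G0) hC (sub_ne_zero.2 hy.symm)
      (sub_ne_zero.2 hy'.symm) (by linear_combination E1) (by linear_combination E2)
      (by linear_combination E3)
    have c1 := cube_sub h3 y y0
    have c2 := cube_sub h3 y' y0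
    set g := (G - G0) / (y - y0) ^ 3 with hg
    rw [c1] at e1 e3
    rw [c2] at e2 e4
    refine ⟨(none, g), ?_, ?_⟩
    · simp only [ind, lin, thd, Prod.mk.injEq]
      exact ⟨⟨trivial, by linear_combination -e1⟩, by linear_combination -e3⟩
    · simp only [ind, lin, thd, Prod.mk.injEq]
      exact ⟨⟨trivial, by linear_combination -e2⟩, by linear_combination -e4⟩
  · have hx1 : x - x0 ≠ 0 := sub_ne_zero.2 hx
    have hx2 : x' - x0 ≠ 0 := by
      intro h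
      have hx' : x' = x0 := sub_eq_zero.1 h
      subst hx'
      have : (x - x') * (y' - y0) = 0 := by linear_combination hcol
      rcases mul_eq_zero.1 this with h | h
      · exact hx1 h
      · exact (n2.resolve_left (by simp)) (sub_eq_zero.1 h).symm
    set m := (y - y0) / (x - x0) with hm
    have hm1 : y - y0 = m * (x - x0) := by rw [hm]; field_simp
    have hm2 : y' - y0 = m * (x' - x0) := by
      rw [hm]
      field_simp
      linear_combination hcol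
    have hm3 : y - y' = m * (x - x') := by linear_combination hm1 - hm2
    obtain ⟨e1, e2, e3, e4⟩ := triple_aux h3 (C := C) (x1 := x - x0)
      (s1 := (a - a0) + m ^ 3 * (b - b0) - m ^ 2 * (x - x0)) (g1 := G - G0)
      (x2 := x' - x0) (s2 := (a' - a0) + m ^ 3 * (b' - b0) - m ^ 2 * (x' - x0)) (g2 := G' - G0)
      hC hx1 hx2
      (by
        have h : y0 - y = m * (x0 - x) := by linear_combination -hm1
        rw [h] at E1
        linear_combination E1)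
      (by
        have h : y0 - y' = m * (x0 - x') := by linear_combination -hm2
        rw [h] at E2
        linear_combination E2)
      (by
        rw [hm3] at E3
        linear_combination E3)
    have c1 := cube_sub h3 x x0
    have c2 := cube_sub h3 x' x0
    set g := (G - G0) / (x - x0) ^ 3 with hg
    rw [c1] at e1 e3
    rw [c2] at e2 e4
    refine ⟨(some m, g), ?_, ?_⟩
    · simp only [ind, lin, thd, Prod.mk.injEq]
      exact ⟨⟨by linear_combination -hm1, by linear_combination -e1⟩, by linear_combination -e3⟩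
    · simp only [ind, lin, thd, Prod.mk.injEq]
      exact ⟨⟨by linear_combination -hm2, by linear_combination -e2⟩, by linear_combination -e4⟩

/-- The identity of degree four in characteristic three. -/
lemma ident (l m x1 y1 x2 y2 : F) :
    l ^ 3 * m ^ 3 * ((x1 - x2) ^ 2 * (y1 - y2) ^ 2)
      - l ^ 3 * ((x1 - (l * x1 + m * x2)) ^ 2 * (y1 - (l * y1 + m * y2)) ^ 2)
      - m ^ 3 * ((x2 - (l * x1 + m * x2)) ^ 2 * (y2 - (l * y1 + m * y2)) ^ 2)
      + (l ^ 3 + m ^ 3 - 1) * (- l ^ 3 * (x1 ^ 2 * y1 ^ 2) - m ^ 3 * (x2 ^ 2 * y2 ^ 2)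
          + (l * x1 + m * x2) ^ 2 * (l * y1 + m * y2) ^ 2)
      + (l * m * (l + m - 1)) ^ 2 * (x1 * y2 - x2 * y1) ^ 2 = 0 := by
  linear_combination (l ^ 6 * x1 ^ 2 * y1 ^ 2 + 2 * l ^ 5 * m * x1 ^ 2 * y1 * y2
    + 2 * l ^ 5 * m * x1 * y1 ^ 2 * x2 - 2 * l ^ 5 * x1 ^ 2 * y1 ^ 2
    + l ^ 4 * m ^ 2 * x1 ^ 2 * y2 ^ 2 + 2 * l ^ 4 * m ^ 2 * x1 * y1 * x2 * y2
    + l ^ 4 * m ^ 2 * y1 ^ 2 * x2 ^ 2 - 2 * l ^ 4 * m * x1 ^ 2 * y1 * y2
    - 2 * l ^ 4 * m * x1 * y1 ^ 2 * x2 + l ^ 4 * x1 ^ 2 * y1 ^ 2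
    + l ^ 3 * m ^ 3 * x1 ^ 2 * y2 ^ 2 + l ^ 3 * m ^ 3 * y1 ^ 2 * x2 ^ 2
    - l ^ 3 * m ^ 2 * x1 ^ 2 * y2 ^ 2 - l ^ 3 * m ^ 2 * y1 ^ 2 * x2 ^ 2
    + l ^ 2 * m ^ 4 * x1 ^ 2 * y2 ^ 2 + 2 * l ^ 2 * m ^ 4 * x1 * y1 * x2 * y2
    + l ^ 2 * m ^ 4 * y1 ^ 2 * x2 ^ 2 - l ^ 2 * m ^ 3 * x1 ^ 2 * y2 ^ 2
    - l ^ 2 * m ^ 3 * y1 ^ 2 * x2 ^ 2 - 2 * l ^ 2 * m ^ 2 * x1 * y1 * x2 * y2
    + 2 * l * m ^ 5 * x1 * x2 * y2 ^ 2 + 2 * l * m ^ 5 * y1 * x2 ^ 2 * y2
    - 2 * l * m ^ 4 * x1 * x2 * y2 ^ 2 - 2 * l * m ^ 4 * y1 * x2 ^ 2 * y2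
    + m ^ 6 * x2 ^ 2 * y2 ^ 2 - 2 * m ^ 5 * x2 ^ 2 * y2 ^ 2 + m ^ 4 * x2 ^ 2 * y2 ^ 2) * h3

lemma four_aux {C x1 y1 g1 a1 b1 x2 y2 g2 a2 b2 x3 y3 g3 a3 b3 : F} (hC : ∀ z : F, z ^ 2 ≠ -C)
    (E1 : x1 ^ 3 * a1 + y1 ^ 3 * b1 = x1 ^ 2 * y1 ^ 2 + C * g1 ^ 2)
    (E2 : x2 ^ 3 * a2 + y2 ^ 3 * b2 = x2 ^ 2 * y2 ^ 2 + C * g2 ^ 2)
    (E3 : x3 ^ 3 * a3 + y3 ^ 3 * b3 = x3 ^ 2 * y3 ^ 2 + C * g3 ^ 2)
    (E12 : (x1 - x2) ^ 3 * (a1 - a2) + (y1 - y2) ^ 3 * (b1 - b2) =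
      (x1 - x2) ^ 2 * (y1 - y2) ^ 2 + C * (g1 - g2) ^ 2)
    (E13 : (x1 - x3) ^ 3 * (a1 - a3) + (y1 - y3) ^ 3 * (b1 - b3) =
      (x1 - x3) ^ 2 * (y1 - y3) ^ 2 + C * (g1 - g3) ^ 2)
    (E23 : (x2 - x3) ^ 3 * (a2 - a3) + (y2 - y3) ^ 3 * (b2 - b3) =
      (x2 - x3) ^ 2 * (y2 - y3) ^ 2 + C * (g2 - g3) ^ 2)
    (d12 : x1 * y2 - x2 * y1 ≠ 0) (d13 : x1 * y3 - x3 * y1 ≠ 0) (d23 : x2 * y3 - x3 * y2 ≠ 0)
    (d123 : (x1 * y2 - x2 * y1) - (x1 * y3 - x3 * y1) + (x2 * y3 - x3 * y2) ≠ 0) : False := by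
  obtain ⟨l, hl⟩ : ∃ l, l * (x1 * y2 - x2 * y1) = - (x2 * y3 - x3 * y2) :=
    ⟨- (x2 * y3 - x3 * y2) / (x1 * y2 - x2 * y1), div_mul_cancel₀ _ d12⟩
  obtain ⟨m, hm⟩ : ∃ m, m * (x1 * y2 - x2 * y1) = x1 * y3 - x3 * y1 :=
    ⟨(x1 * y3 - x3 * y1) / (x1 * y2 - x2 * y1), div_mul_cancel₀ _ d12⟩
  have hx3 : x3 = l * x1 + m * x2 := by
    apply mul_left_cancel₀ d12
    linear_combination -x1 * hl - x2 * hm
  have hy3 : y3 = l * y1 + m * y2 := by
    apply mul_left_cancel₀ d12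
    linear_combination -y1 * hl - y2 * hm
  have hl0 : l ≠ 0 := by
    intro h
    rw [h, zero_mul] at hl
    exact d23 (by linear_combination hl)
  have hm0 : m ≠ 0 := by
    intro h
    rw [h, zero_mul] at hm
    exact d13 (by linear_combination -hm)
  have hlm0 : l + m - 1 ≠ 0 := by
    intro h
    apply d123
    linear_combination (x2 * y1 - x1 * y2) * h + hl + hm
  subst hx3 hy3
  rw [cube_sub h3, cube_sub h3] at E12 E13 E23
  have cx : (l * x1 + m * x2) ^ 3 = l ^ 3 * x1 ^ 3 + m ^ 3 * x2 ^ 3 := by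
    linear_combination (l ^ 2 * x1 ^ 2 * m * x2 + l * x1 * m ^ 2 * x2 ^ 2) * h3
  have cy : (l * y1 + m * y2) ^ 3 = l ^ 3 * y1 ^ 3 + m ^ 3 * y2 ^ 3 := by
    linear_combination (l ^ 2 * y1 ^ 2 * m * y2 + l * y1 * m ^ 2 * y2 ^ 2) * h3
  rw [cx, cy] at E3 E13 E23
  have hmain : (l * m * (l + m - 1) * (x1 * y2 - x2 * y1)) ^ 2 =
      -C * (-l ^ 3 * g1 - m ^ 3 * g2 + g3) ^ 2 := by
    linear_combination ident h3 l m x1 y1 x2 y2 + l ^ 3 * m ^ 3 * E12 - l ^ 3 * E13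
      - m ^ 3 * E23 + (l ^ 3 + m ^ 3 - 1) * (-l ^ 3 * E1 - m ^ 3 * E2 + E3)
  have hne : l * m * (l + m - 1) * (x1 * y2 - x2 * y1) ≠ 0 :=
    mul_ne_zero (mul_ne_zero (mul_ne_zero hl0 hm0) hlm0) d12
  have hY : -l ^ 3 * g1 - m ^ 3 * g2 + g3 ≠ 0 := by
    intro h
    rw [h] at hmain
    apply hne
    have : (l * m * (l + m - 1) * (x1 * y2 - x2 * y1)) ^ 2 = 0 := by rw [hmain]; ring
    exact pow_eq_zero_iff (by norm_num) |>.1 this
  apply hC (l * m * (l + m - 1) * (x1 * y2 - x2 * y1) / (-l ^ 3 * g1 - m ^ 3 * g2 + g3))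
  rw [div_pow, hmain, mul_div_cancel_right₀ _ (pow_ne_zero 2 hY)]

/-- Collinearity of three points. -/
def col (u v w : Vt F) : Prop :=
  (v.1.1.1 - u.1.1.1) * (w.1.1.2 - u.1.1.2) = (w.1.1.1 - u.1.1.1) * (v.1.1.2 - u.1.1.2)

/-- Among four pairwise adjacent vertices, three lie over collinear points. -/
lemma four {C : F} (hC : ∀ z : F, z ^ 2 ≠ -C) {v0 v1 v2 v3 : Vt F} (h01 : Adj0 C v1 v0)
    (h02 : Adj0 C v2 v0) (h03 : Adj0 C v3 v0) (h12 : Adj0 C v1 v2) (h13 : Adj0 C v1 v3)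
    (h23 : Adj0 C v2 v3) :
    col v0 v1 v2 ∨ col v0 v1 v3 ∨ col v0 v2 v3 ∨ col v1 v2 v3 := by
  by_contra hcon
  push Not at hcon
  obtain ⟨k1, k2, k3, k4⟩ := hcon
  unfold col at k1 k2 k3 k4
  refine four_aux h3 hC h01.2 h02.2 h03.2 ?_ ?_ ?_ (x1 := v1.1.1.1 - v0.1.1.1)
    (x2 := v2.1.1.1 - v0.1.1.1) (x3 := v3.1.1.1 - v0.1.1.1) (y1 := v1.1.1.2 - v0.1.1.2)
    (y2 := v2.1.1.2 - v0.1.1.2) (y3 := v3.1.1.2 - v0.1.1.2) ?_ ?_ ?_ ?_
  · linear_combination h12.2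
  · linear_combination h13.2
  · linear_combination h23.2
  · exact fun h => k1 (by linear_combination h)
  · exact fun h => k2 (by linear_combination h)
  · exact fun h => k3 (by linear_combination h)
  · exact fun h => k4 (by linear_combination h)

end char

/-- The kept edges: the two ends have different signs in their block. -/
def Kept (C : F) (y : Vt F → (Option F × F) × ((F × F) × F) → Bool) (v w : Vt F) : Prop :=
  ∃ δ, v.1 ≠ w.1 ∧ ind C δ v = ind C δ w ∧ y v (δ, ind C δ v) ≠ y w (δ, ind C δ w)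

lemma Kept.symm {C : F} {y : Vt F → (Option F × F) × ((F × F) × F) → Bool} {v w : Vt F}
    (h : Kept C y v w) : Kept C y w v := by
  obtain ⟨δ, h1, h2, h4⟩ := h
  exact ⟨δ, h1.symm, h2.symm, h4.symm⟩

lemma no_kept_triple (h3 : (3 : F) = 0) {C : F}
    {y : Vt F → (Option F × F) × ((F × F) × F) → Bool} {u v w : Vt F}
    (huv : Kept C y u v) (huw : Kept C y u w) (hvw : Kept C y v w) {δ : Option F × F}
    (h1 : ind C δ u = ind C δ v) (h2 : ind C δ u = ind C δ w) : False := by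
  obtain ⟨δ1, n1, e1, s1⟩ := huv
  obtain ⟨δ2, n2, e2, s2⟩ := huw
  obtain ⟨δ3, n3, e3, s3⟩ := hvw
  have d1 := dir_unique h3 n1 h1 e1
  have d2 := dir_unique h3 n2 h2 e2
  have d3 := dir_unique h3 n3 (h1.symm.trans h2) e3
  subst d1 d2 d3
  revert s1 s2 s3
  cases y u (δ, ind C δ u) <;> cases y v (δ, ind C δ v) <;> cases y w (δ, ind C δ w) <;> simp

/-- The kept graph has no four pairwise adjacent vertices. -/
theorem kept_cliqueFree (h3 : (3 : F) = 0) {C : F} (hC : ∀ z : F, z ^ 2 ≠ -C)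
    {y : Vt F → (Option F × F) × ((F × F) × F) → Bool} {v0 v1 v2 v3 : Vt F}
    (h01 : Kept C y v0 v1) (h02 : Kept C y v0 v2) (h03 : Kept C y v0 v3) (h12 : Kept C y v1 v2)
    (h13 : Kept C y v1 v3) (h23 : Kept C y v2 v3) : False := by
  have hC0 : C ≠ 0 := by
    intro h
    exact hC 0 (by rw [h]; ring)
  have hadj : ∀ {v w : Vt F}, Kept C y v w → Adj0 C v w := by
    rintro v w ⟨δ, n, e, _⟩
    exact adj0_of_ind h3 n e
  have main : ∀ {u v w : Vt F}, Kept C y u v → Kept C y u w → Kept C y v w → col u v w → False := by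
    intro u v w huv huw hvw hc
    obtain ⟨δ, e1, e2⟩ := triple h3 hC0 (hadj huv) (hadj huw) (hadj hvw) hc
    exact no_kept_triple h3 huv huw hvw e1 e2
  rcases four h3 hC (hadj h01.symm) (hadj h02.symm) (hadj h03.symm) (hadj h12) (hadj h13)
    (hadj h23) with h | h | h | h
  · exact main h01 h02 h12 h
  · exact main h01 h03 h13 h
  · exact main h02 h03 h23 h
  · exact main h12 h13 h23 h

end Pool.Agent.H91.T5
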