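import Mathlib

/-! # Random signs of the edges of a graph of bounded degree: the trace bound

For a symmetric zero-one matrix `a` with row sums at most `D`, the average over all signings of the
trace of the `2k`-th power is at most `|W| (4 (D + 4k))^k`.  The proof bounds, by induction on the
length of the walk, the number of walks which complete a given set `U` of open edges; the weight of
the state is the number of pairings of the half-edges at every vertex. -/

set_option autoImplicit false
set_option linter.unusedSectionVars false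

namespace Pool.Agent.H91.T5

open Finset

/-- The sign of a bit. -/
def sg (b : Bool) : ℝ := if b then 1 else -1

lemma sg_mul_self (b : Bool) : sg b * sg b = 1 := by cases b <;> simp [sg]

lemma sum_sg : ∑ b : Bool, sg b = 0 := by simp [sg]

/-- The number of pairings. -/
def pf (d : ℕ) : ℕ := Nat.doubleFactorial (d - 1)

lemma pf_zero : pf 0 = 1 := rfl

lemma pf_two : pf 2 = 1 := rfl

lemma pf_add_two (d : ℕ) : pf (d + 2) = (d + 1) * pf d := by
  cases d with
  | zero => rfl
  | succ d => exact Nat.doubleFactorial_add_two d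

variable {W : Type} [Fintype W] [DecidableEq W]

/-- The signed adjacency matrix. -/
def sX (a : W → W → Prop) [∀ i j, Decidable (a i j)] (s : Sym2 W → Bool) : Matrix W W ℝ :=
  fun i j => if a i j then sg (s s(i, j)) else 0

/-- The character of a set of edges. -/
def ch (U : Finset (Sym2 W)) (s : Sym2 W → Bool) : ℝ := ∏ e ∈ U, sg (s e)

/-- The half-edges at `v` of the state `(U, i, j)`. -/
def cnt (U : Finset (Sym2 W)) (i j v : W) : ℕ :=
  (U.filter (fun e => v ∈ e)).card + (if v = i then 1 else 0) + (if v = j then 1 else 0)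

/-- The weight of the state. -/
def wt (U : Finset (Sym2 W)) (i j : W) : ℝ := ∏ v, (pf (cnt U i j v) : ℝ)

lemma wt_nonneg (U : Finset (Sym2 W)) (i j : W) : 0 ≤ wt U i j :=
  prod_nonneg fun _ _ => Nat.cast_nonneg _

lemma sum_ch (U : Finset (Sym2 W)) : ∑ s : Sym2 W → Bool, ch U s =
    if U = ∅ then (2 : ℝ) ^ Fintype.card (Sym2 W) else 0 := by
  have h1 : ∀ s : Sym2 W → Bool, ch U s = ∏ e, (if e ∈ U then sg (s e) else 1) := by
    intro s
    rw [ch, prod_ite_mem, univ_inter]
  rw [sum_congr rfl fun s _ => h1 s]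
  have h2 : ∑ s : Sym2 W → Bool, ∏ e, (if e ∈ U then sg (s e) else 1) =
      ∏ e : Sym2 W, ∑ b : Bool, (if e ∈ U then sg b else 1) := by
    rw [Finset.prod_univ_sum]
    rw [Fintype.piFinset_univ]
  rw [h2]
  split_ifs with hU
  · subst hU
    simp
  · obtain ⟨e, he⟩ := nonempty_iff_ne_empty.2 hU
    apply prod_eq_zero (mem_univ e)
    simp only [he, if_true]
    exact sum_sg

lemma ch_insert {U : Finset (Sym2 W)} {e : Sym2 W} (he : e ∉ U) (s : Sym2 W → Bool) :
    ch (insert e U) s = sg (s e) * ch U s := by
  rw [ch, prod_insert he, ch]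

lemma ch_erase {U : Finset (Sym2 W)} {e : Sym2 W} (he : e ∈ U) (s : Sym2 W → Bool) :
    ch (U.erase e) s = sg (s e) * ch U s := by
  have h : ch U s = sg (s e) * ch (U.erase e) s := by
    rw [ch, ch, mul_prod_erase U (fun e => sg (s e)) he]
  rw [h, ← mul_assoc, sg_mul_self, one_mul]

/-- The effect of a new edge on the half-edges. -/
lemma cnt_insert {U : Finset (Sym2 W)} {i l : W} (j : W) (hil : i ≠ l) (he : s(i, l) ∉ U) (v : W) :
    cnt (insert s(i, l) U) l j v = if v = l then cnt U i j l + 2 else cnt U i j v := by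
  have hne : ∀ w : W, s(i, l) ∉ U.filter (fun e => w ∈ e) := fun w h => he (mem_filter.1 h).1
  unfold cnt
  rw [filter_insert]
  by_cases hv : v = l
  · subst hv
    rw [if_pos (Sym2.mem_mk_right i v), card_insert_of_notMem (hne v), if_pos rfl, if_pos rfl,
      if_neg hil.symm]
    omega
  · rw [if_neg hv, if_neg hv]
    by_cases hi : v = i
    · subst hi
      rw [if_pos (Sym2.mem_mk_left v l), card_insert_of_notMem (hne v), if_pos rfl]
    · have : v ∉ s(i, l) := by
        rw [Sym2.mem_iff]
        exact fun h => h.elim hi hv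
      rw [if_neg this, if_neg hi]

lemma wt_insert {U : Finset (Sym2 W)} {i l : W} (j : W) (hil : i ≠ l) (he : s(i, l) ∉ U) :
    wt (insert s(i, l) U) l j = (cnt U i j l + 1) * wt U i j := by
  unfold wt
  rw [← mul_prod_erase univ (fun v => (pf (cnt (insert s(i, l) U) l j v) : ℝ)) (mem_univ l),
    ← mul_prod_erase univ (fun v => (pf (cnt U i j v) : ℝ)) (mem_univ l)]
  rw [cnt_insert j hil he, if_pos rfl, pf_add_two]
  have : ∏ v ∈ univ.erase l, (pf (cnt (insert s(i, l) U) l j v) : ℝ) =
      ∏ v ∈ univ.erase l, (pf (cnt U i j v) : ℝ) := by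
    refine prod_congr rfl fun v hv => ?_
    rw [cnt_insert j hil he, if_neg (ne_of_mem_erase hv)]
  rw [this]
  push_cast
  ring

lemma wt_erase {U : Finset (Sym2 W)} {i l : W} (j : W) (hil : i ≠ l) (he : s(i, l) ∈ U) :
    wt U i j = (cnt (U.erase s(i, l)) l j i + 1) * wt (U.erase s(i, l)) l j := by
  have h1 : s(l, i) ∉ U.erase s(i, l) := by
    rw [Sym2.eq_swap]; exact notMem_erase _ _
  have h2 := wt_insert j hil.symm h1
  rw [← h2]
  congr 1
  rw [Sym2.eq_swap, insert_erase he]

lemma cnt_erase {U : Finset (Sym2 W)} {i l : W} (j : W) (hil : i ≠ l) (he : s(i, l) ∈ U) :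
    (U.filter (fun e => i ∈ e)).card ≤ cnt (U.erase s(i, l)) l j i + 1 := by
  have h1 : s(l, i) ∉ U.erase s(i, l) := by
    rw [Sym2.eq_swap]; exact notMem_erase _ _
  have h2 := cnt_insert j hil.symm h1 i
  rw [if_pos rfl, Sym2.eq_swap, insert_erase he] at h2
  unfold cnt at h2 ⊢
  rw [if_pos rfl] at h2
  split_ifs at h2 ⊢ <;> omega

lemma wt_empty (i : W) : wt (∅ : Finset (Sym2 W)) i i = 1 := by
  unfold wt
  apply prod_eq_one
  intro v _
  unfold cnt
  by_cases h : v = i
  · subst h; simp [pf_two]
  · simp [h, pf_zero]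

/-- The sum of the counts. -/
lemma sum_cnt (U : Finset (Sym2 W)) (i j : W) : ∑ v, cnt U i j v ≤ 2 * U.card + 2 := by
  unfold cnt
  rw [sum_add_distrib, sum_add_distrib]
  have h1 : ∑ v : W, (U.filter (fun e => v ∈ e)).card ≤ 2 * U.card := by
    have h2 : ∀ v : W, (U.filter (fun e => v ∈ e)).card = ∑ e ∈ U, if v ∈ e then 1 else 0 := by
      intro v
      rw [card_filter]
    rw [sum_congr rfl fun v _ => h2 v, sum_comm]
    have h3 : ∀ e ∈ U, ∑ v : W, (if v ∈ e then 1 else 0) ≤ 2 := by
      intro e _
      rw [← card_filter]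
      induction e using Sym2.ind with
      | _ x y =>
        have : (univ.filter (fun v => v ∈ s(x, y))) ⊆ {x, y} := by
          intro v hv
          rw [mem_filter, Sym2.mem_iff] at hv
          simpa using hv.2
        exact (card_le_card this).trans card_le_two
    calc ∑ e ∈ U, ∑ v : W, (if v ∈ e then 1 else 0) ≤ ∑ e ∈ U, 2 := sum_le_sum h3
      _ = 2 * U.card := by rw [sum_const, smul_eq_mul, mul_comm]
  have h4 : ∑ v : W, (if v = i then 1 else 0) = 1 := by simp
  have h5 : ∑ v : W, (if v = j then 1 else 0) = 1 := by simp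
  omega

variable (a : W → W → Prop) [∀ i j, Decidable (a i j)]

/-- The number of walks of length `m` from `i` to `j` whose edges, with those of `U`, all occur an
even number of times (times the number of signings). -/
noncomputable def Em (m : ℕ) (i j : W) (U : Finset (Sym2 W)) : ℝ :=
  ∑ s : Sym2 W → Bool, ch U s * (sX a s ^ m) i j

lemma Em_succ (m : ℕ) (i j : W) (U : Finset (Sym2 W)) :
    Em a (m + 1) i j U = ∑ l, if a i l then
      Em a m l j (if s(i, l) ∈ U then U.erase s(i, l) else insert s(i, l) U) else 0 := by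
  unfold Em
  have h1 : ∀ s : Sym2 W → Bool, ch U s * (sX a s ^ (m + 1)) i j =
      ∑ l, if a i l then ch (if s(i, l) ∈ U then U.erase s(i, l) else insert s(i, l) U) s *
        (sX a s ^ m) l j else 0 := by
    intro s
    rw [pow_succ', Matrix.mul_apply, mul_sum]
    refine sum_congr rfl fun l _ => ?_
    unfold sX
    by_cases h : a i l
    · rw [if_pos h, if_pos h]
      by_cases hU : s(i, l) ∈ U
      · rw [if_pos hU, ch_erase hU]; ring
      · rw [if_neg hU, ch_insert hU]; ring
    · rw [if_neg h, if_neg h]; ring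
  rw [sum_congr rfl fun s _ => h1 s, sum_comm]
  refine sum_congr rfl fun l _ => ?_
  split_ifs with h
  · rfl
  · rfl
  · simp

lemma Em_zero (i j : W) (U : Finset (Sym2 W)) :
    Em a 0 i j U = if U = ∅ ∧ i = j then (2 : ℝ) ^ Fintype.card (Sym2 W) else 0 := by
  unfold Em
  have h1 : ∀ s : Sym2 W → Bool, ch U s * (sX a s ^ 0) i j = ch U s * (if i = j then 1 else 0) := by
    intro s
    rw [pow_zero, Matrix.one_apply]
  rw [sum_congr rfl fun s _ => h1 s, ← sum_mul, sum_ch]
  by_cases hU : U = ∅ <;> by_cases hij : i = j <;> simp [hU, hij]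

/-- The main induction. -/
theorem Em_le {D k : ℕ} {t : ℝ} (ht : 0 < t) (hQ : (D : ℝ) + 4 * k ≤ t ^ 2)
    (hirr : ∀ i, ¬ a i i) (hD : ∀ i, (univ.filter (fun l => a i l)).card ≤ D) (m : ℕ) :
    ∀ (i j : W) (U : Finset (Sym2 W)), U.card + m ≤ 2 * k →
      Em a m i j U * t ^ U.card ≤ 2 ^ Fintype.card (Sym2 W) * (wt U i j * (2 * t) ^ m) := by
  induction m with
  | zero =>
    intro i j U _
    rw [Em_zero]
    by_cases h : U = ∅ ∧ i = j
    · obtain ⟨rfl, rfl⟩ := h
      rw [if_pos ⟨rfl, rfl⟩, wt_empty]
      simp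
    · rw [if_neg h, zero_mul]
      have := wt_nonneg U i j
      positivity
  | succ m ih =>
    intro i j U hU
    set N : ℝ := 2 ^ Fintype.card (Sym2 W) with hN
    set P : ℝ := (2 * t) ^ m with hP
    have hN0 : 0 < N := by positivity
    have hP0 : 0 < P := by positivity
    have hw0 : 0 ≤ wt U i j := wt_nonneg U i j
    set d : ℕ := (U.filter (fun e => i ∈ e)).card with hd
    have key : ∀ l, (if a i l then
        Em a m l j (if s(i, l) ∈ U then U.erase s(i, l) else insert s(i, l) U) else 0) * t ^ U.card ≤
        (if a i l ∧ s(i, l) ∈ U then N * P * t * (wt U i j / d) else 0) +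
        (if a i l then N * P * t⁻¹ * wt U i j * (cnt U i j l + 1) else 0) := by
      intro l
      by_cases hal : a i l
      · have hil : i ≠ l := fun h => hirr i (by rw [← h] at hal; exact hal)
        rw [if_pos hal, if_pos hal]
        have hnn : 0 ≤ N * P * t⁻¹ * wt U i j * (cnt U i j l + 1) := by positivity
        by_cases he : s(i, l) ∈ U
        · rw [if_pos he, if_pos ⟨hal, he⟩]
          have hd0 : 0 < d := card_pos.2 ⟨s(i, l), mem_filter.2 ⟨he, Sym2.mem_mk_left i l⟩⟩
          have hcard : (U.erase s(i, l)).card + 1 = U.card := card_erase_add_one he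
          have h1 := ih l j (U.erase s(i, l)) (by omega)
          have h2 : wt (U.erase s(i, l)) l j ≤ wt U i j / d := by
            rw [le_div_iff₀ (by exact_mod_cast hd0)]
            have h3 : (d : ℝ) ≤ cnt (U.erase s(i, l)) l j i + 1 := by
              exact_mod_cast cnt_erase j hil he
            rw [wt_erase j hil he, mul_comm]
            exact mul_le_mul_of_nonneg_right h3 (wt_nonneg _ _ _)
          have h4 : Em a m l j (U.erase s(i, l)) * t ^ U.card =
              (Em a m l j (U.erase s(i, l)) * t ^ (U.erase s(i, l)).card) * t := by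
            rw [← hcard, pow_succ]; ring
          rw [h4]
          calc (Em a m l j (U.erase s(i, l)) * t ^ (U.erase s(i, l)).card) * t
              ≤ (N * (wt (U.erase s(i, l)) l j * P)) * t := mul_le_mul_of_nonneg_right h1 ht.le
            _ = N * P * t * wt (U.erase s(i, l)) l j := by ring
            _ ≤ N * P * t * (wt U i j / d) := mul_le_mul_of_nonneg_left h2 (by positivity)
            _ ≤ _ := le_add_of_nonneg_right hnn
        · rw [if_neg he, if_neg (fun h => he h.2), zero_add]
          have hcard : (insert s(i, l) U).card = U.card + 1 := card_insert_of_notMem he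
          have h1 := ih l j (insert s(i, l) U) (by omega)
          rw [wt_insert j hil he, hcard] at h1
          have h4 : Em a m l j (insert s(i, l) U) * t ^ U.card =
              (Em a m l j (insert s(i, l) U) * t ^ (U.card + 1)) * t⁻¹ := by
            rw [pow_succ]; field_simp
          rw [h4]
          calc (Em a m l j (insert s(i, l) U) * t ^ (U.card + 1)) * t⁻¹
              ≤ (N * ((cnt U i j l + 1) * wt U i j * P)) * t⁻¹ :=
                mul_le_mul_of_nonneg_right h1 (by positivity)
            _ = _ := by ring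
      · rw [if_neg hal, if_neg hal, if_neg (fun h => hal h.1)]
        simp
    have hA : ∑ l, (if a i l ∧ s(i, l) ∈ U then N * P * t * (wt U i j / d) else 0) ≤
        N * P * t * wt U i j := by
      rw [← sum_filter, sum_const, nsmul_eq_mul]
      have h1 : (univ.filter (fun l => a i l ∧ s(i, l) ∈ U)).card ≤ d := by
        rw [hd]
        apply card_le_card_of_injOn (fun l => s(i, l))
        · intro l hl
          rw [mem_coe, mem_filter] at hl
          rw [mem_coe, mem_filter]
          exact ⟨hl.2.2, Sym2.mem_mk_left i l⟩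
        · intro l _ l' _ hll
          exact (Sym2.congr_right).1 hll
      by_cases hd0 : d = 0
      · have h2 : (univ.filter (fun l => a i l ∧ s(i, l) ∈ U)).card = 0 := by omega
        rw [h2]
        simp only [Nat.cast_zero, zero_mul]
        positivity
      · have hd1 : (0 : ℝ) < d := by exact_mod_cast Nat.pos_of_ne_zero hd0
        calc ((univ.filter (fun l => a i l ∧ s(i, l) ∈ U)).card : ℝ) * (N * P * t * (wt U i j / d))
            ≤ d * (N * P * t * (wt U i j / d)) :=
              mul_le_mul_of_nonneg_right (by exact_mod_cast h1) (by positivity)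
          _ = _ := by field_simp
    have hB : ∑ l, (if a i l then N * P * t⁻¹ * wt U i j * (cnt U i j l + 1) else 0) ≤
        N * P * t⁻¹ * wt U i j * t ^ 2 := by
      have h1 : ∀ l, (if a i l then N * P * t⁻¹ * wt U i j * (cnt U i j l + 1) else 0) =
          N * P * t⁻¹ * wt U i j * (if a i l then ((cnt U i j l : ℝ) + 1) else 0) := by
        intro l
        split_ifs <;> simp
      rw [sum_congr rfl fun l _ => h1 l, ← mul_sum]
      apply mul_le_mul_of_nonneg_left _ (by positivity)
      calc ∑ l, (if a i l then ((cnt U i j l : ℝ) + 1) else 0)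
          ≤ ∑ l, ((cnt U i j l : ℝ) + if a i l then 1 else 0) := by
            apply sum_le_sum
            intro l _
            split_ifs
            · exact le_rfl
            · positivity
        _ = ∑ l, (cnt U i j l : ℝ) + ((univ.filter (fun l => a i l)).card : ℝ) := by
            rw [sum_add_distrib, sum_boole]
        _ ≤ (2 * U.card + 2) + D := by
            apply add_le_add
            · exact_mod_cast sum_cnt U i j
            · exact_mod_cast hD i
        _ ≤ (D : ℝ) + 4 * k := by
            have h2 : (U.card : ℝ) + (m + 1) ≤ 2 * k := by exact_mod_cast hU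
            have h3 : (0 : ℝ) ≤ m := Nat.cast_nonneg m
            linarith
        _ ≤ t ^ 2 := hQ
    rw [Em_succ, sum_mul]
    calc _ ≤ ∑ l, ((if a i l ∧ s(i, l) ∈ U then N * P * t * (wt U i j / d) else 0) +
          (if a i l then N * P * t⁻¹ * wt U i j * (cnt U i j l + 1) else 0)) :=
          sum_le_sum fun l _ => key l
      _ ≤ N * P * t * wt U i j + N * P * t⁻¹ * wt U i j * t ^ 2 := by
          rw [sum_add_distrib]; exact add_le_add hA hB
      _ = N * (wt U i j * (2 * t) ^ (m + 1)) := by
          rw [pow_succ (2 * t) m, ← hP]; field_simp; ring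

/-- There is a signing with a small trace of the `2k`-th power. -/
theorem exists_signing {D k : ℕ} (hk : 0 < k)
    (hirr : ∀ i, ¬ a i i) (hD : ∀ i, (univ.filter (fun l => a i l)).card ≤ D) :
    ∃ s : Sym2 W → Bool, (sX a s ^ (2 * k)).trace ≤
      Fintype.card W * (4 * ((D : ℝ) + 4 * k)) ^ k := by
  set Q : ℝ := (D : ℝ) + 4 * k with hQ
  have hQ0 : 0 < Q := by
    have : (0 : ℝ) < k := by exact_mod_cast hk
    have h2 : (0 : ℝ) ≤ D := Nat.cast_nonneg D
    rw [hQ]; linarith
  set t : ℝ := Real.sqrt Q with ht
  have ht0 : 0 < t := Real.sqrt_pos.2 hQ0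
  have ht2 : t ^ 2 = Q := Real.sq_sqrt hQ0.le
  have h1 : ∑ s : Sym2 W → Bool, (sX a s ^ (2 * k)).trace ≤
      ∑ s : Sym2 W → Bool, Fintype.card W * (4 * Q) ^ k := by
    rw [sum_const, card_univ, Fintype.card_fun, Fintype.card_bool, nsmul_eq_mul]
    have h2 : ∑ s : Sym2 W → Bool, (sX a s ^ (2 * k)).trace = ∑ i, Em a (2 * k) i i ∅ := by
      unfold Em Matrix.trace
      rw [sum_comm]
      refine sum_congr rfl fun i _ => sum_congr rfl fun s _ => ?_
      rw [ch, prod_empty, one_mul, Matrix.diag_apply]
    rw [h2]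
    have h3 : ∀ i, Em a (2 * k) i i ∅ ≤ 2 ^ Fintype.card (Sym2 W) * (4 * Q) ^ k := by
      intro i
      have h4 := Em_le a ht0 ht2.ge hirr hD (2 * k) i i ∅ (by simp)
      rw [card_empty, pow_zero, mul_one, wt_empty, one_mul, pow_mul, mul_pow, ht2] at h4
      norm_num at h4 ⊢
      exact h4
    calc ∑ i, Em a (2 * k) i i ∅ ≤ ∑ i : W, 2 ^ Fintype.card (Sym2 W) * (4 * Q) ^ k :=
          sum_le_sum fun i _ => h3 i
      _ = _ := by
          rw [sum_const, card_univ, nsmul_eq_mul]
          push_cast
          ring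
  obtain ⟨s, _, hs⟩ := exists_le_of_sum_le univ_nonempty h1
  exact ⟨s, hs⟩

end Pool.Agent.H91.T5
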